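import Pool.Agent.Helper70.SK.Stmts3

/-! Module COVS: common shifts for a family of sets of digits. -/

namespace Pool.Agent.Helper70.SK

open Finset

/-- the possible shifts -/
noncomputable def covs_T (m B : ℕ) : Finset (Fin m → ℤ) := Fintype.piFinset (fun _ => Finset.Ioo (-(B : ℤ)) (B : ℤ))

lemma covs_T_card_le (m B : ℕ) : ((covs_T m B).card : ℝ) ≤ 2 ^ m * (B : ℝ) ^ m := by
  unfold covs_T
  rw [Fintype.card_piFinset]
  simp only [Int.card_Ioo, Finset.prod_const, Finset.card_univ, Fintype.card_fin, Nat.cast_pow]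
  rw [← mul_pow]
  apply pow_le_pow_left₀ (by positivity)
  have h1 : ((B : ℤ) - -(B : ℤ) - 1).toNat ≤ 2 * B := by omega
  have h2 : ((((B : ℤ) - -(B : ℤ) - 1).toNat : ℕ) : ℝ) ≤ ((2 * B : ℕ) : ℝ) := by exact_mod_cast h1
  simpa using h2

lemma covs_T_card_pos (m B : ℕ) (hB : 1 ≤ B) : 0 < (covs_T m B).card := by
  apply Finset.card_pos.mpr
  refine ⟨fun _ => 0, ?_⟩
  unfold covs_T
  rw [Fintype.mem_piFinset]
  intro c
  rw [Finset.mem_Ioo]
  omega

lemma covs_mem_T {m B : ℕ} {x a : Fin m → ℤ} (hx : x ∈ gr m B) (ha : a ∈ gr m B) :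
    (fun c => x c - a c) ∈ covs_T m B := by
  unfold gr at hx ha
  unfold covs_T
  rw [Fintype.mem_piFinset] at hx ha ⊢
  intro c
  have h1 := hx c
  have h2 := ha c
  rw [Finset.mem_Ico] at h1 h2
  rw [Finset.mem_Ioo]
  omega

/-- the number of the shifts that miss `A` -/
lemma covs_miss (m B : ℕ) (x : Fin m → ℤ) (hx : x ∈ gr m B) (A : Finset (Fin m → ℤ)) (hA : A ⊆ gr m B) :
    (((covs_T m B).filter (fun t => (fun c => x c - t c) ∉ A)).card : ℝ) =
      (covs_T m B).card - A.card := by
  have h1 : ((covs_T m B).filter (fun t => (fun c => x c - t c) ∈ A)).card = A.card := by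
    apply Finset.card_bij' (fun t _ c => x c - t c) (fun a _ c => x c - a c)
    · intro t ht
      exact (Finset.mem_filter.mp ht).2
    · intro a ha
      rw [Finset.mem_filter]
      refine ⟨covs_mem_T hx (hA ha), ?_⟩
      have : (fun c => x c - (x c - a c)) = a := by
        funext c; ring
      rw [this]
      exact ha
    · intro t ht
      funext c
      ring
    · intro a ha
      funext c
      ring
  have h2 := Finset.card_filter_add_card_filter_not (s := covs_T m B) (fun t => (fun c => x c - t c) ∈ A)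
  have h3 : (((covs_T m B).filter (fun t => (fun c => x c - t c) ∈ A)).card : ℝ) +
      (((covs_T m B).filter (fun t => ¬ (fun c => x c - t c) ∈ A)).card : ℝ) = (covs_T m B).card := by
    exact_mod_cast h2
  rw [h1] at h3
  linarith

/-- the number of the sequences of shifts whose first `j` terms miss `A` -/
lemma covs_count (m B J j : ℕ) (K : ℝ) (hB : 1 ≤ B) (hj : j ≤ J) (x : Fin m → ℤ) (hx : x ∈ gr m B)
    (A : Finset (Fin m → ℤ)) (hA : A ⊆ gr m B) (hK : K * 2 ^ m * (B : ℝ) ^ m ≤ (j : ℝ) * (A.card : ℝ)) (hK0 : 0 < K) :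
    (((Fintype.piFinset (fun _ : Fin J => covs_T m B)).filter
      (fun f => ∀ l : Fin J, (l : ℕ) < j → (fun c => x c - f l c) ∉ A)).card : ℝ) ≤
      Real.exp (-K) * ((covs_T m B).card : ℝ) ^ J := by
  set T := covs_T m B with hT
  have hTpos : (0 : ℝ) < (T.card : ℝ) := by exact_mod_cast covs_T_card_pos m B hB
  have hTle : (T.card : ℝ) ≤ 2 ^ m * (B : ℝ) ^ m := covs_T_card_le m B
  have hmiss := covs_miss m B x hx A hA
  rw [← hT] at hmiss
  have hAT : (A.card : ℝ) ≤ T.card := by
    have h0 : (0 : ℝ) ≤ ((T.filter (fun t => (fun c => x c - t c) ∉ A)).card : ℝ) := by positivity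
    linarith
  have heq : (Fintype.piFinset (fun _ : Fin J => T)).filter
      (fun f => ∀ l : Fin J, (l : ℕ) < j → (fun c => x c - f l c) ∉ A) =
      Fintype.piFinset (fun l : Fin J => if (l : ℕ) < j then T.filter (fun t => (fun c => x c - t c) ∉ A) else T) := by
    ext f
    rw [Finset.mem_filter, Fintype.mem_piFinset, Fintype.mem_piFinset]
    constructor
    · rintro ⟨h1, h2⟩ l
      by_cases hl : (l : ℕ) < j
      · rw [if_pos hl, Finset.mem_filter]
        exact ⟨h1 l, h2 l hl⟩
      · rw [if_neg hl]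
        exact h1 l
    · intro h
      constructor
      · intro l
        have := h l
        by_cases hl : (l : ℕ) < j
        · rw [if_pos hl, Finset.mem_filter] at this
          exact this.1
        · rw [if_neg hl] at this
          exact this
      · intro l hl
        have := h l
        rw [if_pos hl, Finset.mem_filter] at this
        exact this.2
  rw [heq, Fintype.card_piFinset]
  push_cast
  have hprod : ∏ l : Fin J, (((if (l : ℕ) < j then T.filter (fun t => (fun c => x c - t c) ∉ A) else T).card : ℕ) : ℝ) =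
      ((T.card : ℝ) - A.card) ^ j * (T.card : ℝ) ^ (J - j) := by
    have h1 : ∀ l : Fin J, (((if (l : ℕ) < j then T.filter (fun t => (fun c => x c - t c) ∉ A) else T).card : ℕ) : ℝ) =
        (fun i : ℕ => if i < j then ((T.card : ℝ) - A.card) else (T.card : ℝ)) l := by
      intro l
      by_cases hl : (l : ℕ) < j
      · simp only [if_pos hl]
        exact hmiss
      · simp only [if_neg hl]
    rw [Finset.prod_congr rfl (fun l _ => h1 l)]
    rw [Fin.prod_univ_eq_prod_range (fun i : ℕ => if i < j then ((T.card : ℝ) - A.card) else (T.card : ℝ)) J]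
    have h2 : J = j + (J - j) := by omega
    rw [h2, Finset.prod_range_add]
    congr 1
    · rw [Finset.prod_congr rfl (g := fun _ => ((T.card : ℝ) - A.card))]
      · simp
      · intro i hi
        rw [if_pos (Finset.mem_range.mp hi)]
    · rw [Finset.prod_congr rfl (g := fun _ => (T.card : ℝ))]
      · simp
      · intro i hi
        rw [if_neg (by omega)]
  rw [hprod]
  have hexp : ((T.card : ℝ) - A.card) ^ j ≤ Real.exp (-K) * (T.card : ℝ) ^ j := by
    have h1 : (T.card : ℝ) - A.card = T.card * (1 - A.card / T.card) := by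
      field_simp
    rw [h1, mul_pow, mul_comm]
    apply mul_le_mul_of_nonneg_right _ (by positivity)
    have h3 : (1 : ℝ) - A.card / T.card ≤ Real.exp (-(A.card / T.card)) := by
      have := Real.add_one_le_exp (-((A.card : ℝ) / T.card))
      linarith
    have h4 : (0 : ℝ) ≤ 1 - A.card / T.card := by
      rw [sub_nonneg, div_le_one hTpos]
      exact hAT
    calc (1 - (A.card : ℝ) / T.card) ^ j ≤ (Real.exp (-(A.card / T.card))) ^ j := pow_le_pow_left₀ h4 h3 j
      _ = Real.exp (-(j * A.card / T.card)) := by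
          rw [← Real.exp_nat_mul]
          congr 1
          ring
      _ ≤ Real.exp (-K) := by
          apply Real.exp_le_exp.mpr
          apply neg_le_neg
          rw [le_div_iff₀ hTpos]
          have h5 : K * T.card ≤ K * (2 ^ m * (B : ℝ) ^ m) := mul_le_mul_of_nonneg_left hTle hK0.le
          nlinarith
  calc ((T.card : ℝ) - A.card) ^ j * (T.card : ℝ) ^ (J - j)
      ≤ (Real.exp (-K) * (T.card : ℝ) ^ j) * (T.card : ℝ) ^ (J - j) :=
        mul_le_mul_of_nonneg_right hexp (by positivity)
    _ = Real.exp (-K) * (T.card : ℝ) ^ J := by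
        rw [mul_assoc, ← pow_add]
        congr 2
        omega

theorem st_COVS : ST_COVS := by
  intro m B J ι I A j K hB hK hI
  set P := Fintype.piFinset (fun _ : Fin J => covs_T m B) with hP
  have hPcard : (P.card : ℝ) = ((covs_T m B).card : ℝ) ^ J := by
    rw [hP, Fintype.card_piFinset]
    simp
  have hTpos : (0 : ℝ) < ((covs_T m B).card : ℝ) := by exact_mod_cast covs_T_card_pos m B hB
  have hPpos : (0 : ℝ) < (P.card : ℝ) := by rw [hPcard]; positivity
  have hPne : P.Nonempty := by
    apply Finset.card_pos.mp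
    exact_mod_cast hPpos
  set ext : (Fin J → Fin m → ℤ) → ℕ → Fin m → ℤ := fun f l => if h : l < J then f ⟨l, h⟩ else 0 with hext
  set W : (Fin J → Fin m → ℤ) → ℝ := fun f =>
    ∑ s ∈ I, (((gr m B).filter (fun x => ∀ l < j s, (fun c => x c - ext f l c) ∉ A s)).card : ℝ) with hW
  have hgr : ((gr m B).card : ℝ) = (B : ℝ) ^ m := by
    unfold gr
    rw [Fintype.card_piFinset]
    simp
  have hsum : ∑ f ∈ P, W f ≤ ∑ f ∈ P, Real.exp (-K) * (I.card * (B : ℝ) ^ m) := by
    rw [Finset.sum_const, nsmul_eq_mul]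
    simp only [hW]
    rw [Finset.sum_comm]
    have h1 : ∀ s ∈ I, ∑ f ∈ P, (((gr m B).filter (fun x => ∀ l < j s, (fun c => x c - ext f l c) ∉ A s)).card : ℝ) ≤
        (B : ℝ) ^ m * (Real.exp (-K) * (P.card : ℝ)) := by
      intro s hs
      obtain ⟨hA, hj, hKs⟩ := hI s hs
      have h2 : ∀ f ∈ P, (((gr m B).filter (fun x => ∀ l < j s, (fun c => x c - ext f l c) ∉ A s)).card : ℝ) =
          ∑ x ∈ gr m B, (if ∀ l < j s, (fun c => x c - ext f l c) ∉ A s then (1 : ℝ) else 0) := by
        intro f _
        rw [Finset.card_filter]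
        push_cast
        rfl
      rw [Finset.sum_congr rfl h2, Finset.sum_comm]
      have h3 : ∀ x ∈ gr m B, ∑ f ∈ P, (if ∀ l < j s, (fun c => x c - ext f l c) ∉ A s then (1 : ℝ) else 0) ≤
          Real.exp (-K) * (P.card : ℝ) := by
        intro x hx
        have h4 := covs_count m B J (j s) K hB hj x hx (A s) hA hKs hK
        rw [← hPcard] at h4
        refine le_trans (le_of_eq ?_) h4
        rw [← hP, Finset.card_filter]
        push_cast
        apply Finset.sum_congr rfl
        intro f _
        have h5 : (∀ l < j s, (fun c => x c - ext f l c) ∉ A s) ↔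
            (∀ l : Fin J, (l : ℕ) < j s → (fun c => x c - f l c) ∉ A s) := by
          constructor
          · intro h l hl
            have := h l hl
            simp only [hext, dif_pos l.2] at this
            exact this
          · intro h l hl
            have hlJ : l < J := lt_of_lt_of_le hl hj
            have := h ⟨l, hlJ⟩ hl
            simp only [hext, dif_pos hlJ]
            exact this
        by_cases h6 : ∀ l < j s, (fun c => x c - ext f l c) ∉ A s
        · rw [if_pos h6, if_pos (h5.mp h6)]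
        · rw [if_neg h6, if_neg (fun h => h6 (h5.mpr h))]
      calc ∑ x ∈ gr m B, ∑ f ∈ P, (if ∀ l < j s, (fun c => x c - ext f l c) ∉ A s then (1 : ℝ) else 0)
          ≤ ∑ x ∈ gr m B, Real.exp (-K) * (P.card : ℝ) := Finset.sum_le_sum h3
        _ = (B : ℝ) ^ m * (Real.exp (-K) * (P.card : ℝ)) := by
            rw [Finset.sum_const, nsmul_eq_mul, hgr]
    calc ∑ s ∈ I, ∑ f ∈ P, (((gr m B).filter (fun x => ∀ l < j s, (fun c => x c - ext f l c) ∉ A s)).card : ℝ)
        ≤ ∑ s ∈ I, (B : ℝ) ^ m * (Real.exp (-K) * (P.card : ℝ)) := Finset.sum_le_sum h1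
      _ = (P.card : ℝ) * (Real.exp (-K) * (I.card * (B : ℝ) ^ m)) := by
          rw [Finset.sum_const, nsmul_eq_mul]
          ring
  obtain ⟨f, _, hf⟩ := Finset.exists_le_of_sum_le hPne hsum
  exact ⟨ext f, hf⟩

end Pool.Agent.Helper70.SK
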