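import Pool.Agent.Helper70.SK.Stmts3

/-! Module GL: bounded slopes and heights. -/

namespace Pool.Agent.Helper70.SK

open Finset Pool.Agent.Helper70.DK MeasureTheory

theorem gl_pigeon {α ι : Type} [MeasurableSpace α] (μ : Measure α) (S : Set α) (lam : ℝ) (I : Finset ι)
    (hI : I.Nonempty) (S' : ι → Set α) (hS : S ⊆ ⋃ i ∈ I, S' i) (h : ENNReal.ofReal lam ≤ μ S) :
    ∃ i ∈ I, ENNReal.ofReal (lam / I.card) ≤ μ (S' i) := by
  by_contra hne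
  push Not at hne
  have h1 : μ S ≤ ∑ i ∈ I, μ (S' i) := (measure_mono hS).trans (measure_biUnion_finset_le _ _)
  have h2 := ENNReal.sum_lt_sum_of_nonempty hI hne
  have hc : (0 : ℝ) < I.card := by exact_mod_cast hI.card_pos
  rw [Finset.sum_const, nsmul_eq_mul, ← ENNReal.ofReal_natCast, ← ENNReal.ofReal_mul (by positivity),
    mul_div_cancel₀ _ hc.ne'] at h2
  exact absurd (lt_of_le_of_lt (h.trans h1) h2) (lt_irrefl _)

/-- the line set after a change of the unit cube -/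
def gl_L {m : ℕ} (v : Fin m → ℤ) (k : ℤ) (L : Set ((Fin m → ℝ) × (Fin m → ℝ))) :
    Set ((Fin m → ℝ) × (Fin m → ℝ)) :=
  {q | ∃ p ∈ L, q = ((fun c => p.1 c - v c), (fun c => p.2 c + k * p.1 c))}

theorem gl_floor (M : ℕ) (k : ℤ) (hk : |k| ≤ M) (X A : ℝ) :
    -(M : ℤ) ≤ ⌊A + k * X⌋ - (⌊A⌋ + k * ⌊X⌋) ∧ ⌊A + k * X⌋ - (⌊A⌋ + k * ⌊X⌋) ≤ M := by
  have h1 := Int.floor_le A
  have h2 := Int.lt_floor_add_one A
  have h3 := Int.floor_le X
  have h4 := Int.lt_floor_add_one X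
  have h5 := Int.floor_le (A + k * X)
  have h6 := Int.lt_floor_add_one (A + k * X)
  rw [abs_le] at hk
  obtain ⟨hk1, hk2⟩ := hk
  have hk1' : -(M : ℝ) ≤ (k : ℝ) := by exact_mod_cast hk1
  have hk2' : (k : ℝ) ≤ M := by exact_mod_cast hk2
  have hM : (0 : ℝ) ≤ M := by positivity
  have h7 : |(k : ℝ) * (X - ⌊X⌋)| ≤ M * 1 := by
    rw [abs_mul]
    apply mul_le_mul
    · rw [abs_le]; exact ⟨hk1', hk2'⟩
    · rw [abs_le]; constructor <;> linarith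
    · positivity
    · positivity
  rw [abs_le] at h7
  constructor
  · have : (-(M : ℝ)) - 1 < (⌊A + k * X⌋ : ℝ) - (⌊A⌋ + k * ⌊X⌋) := by nlinarith [h7.1]
    have h8 : (-(M : ℤ)) - 1 < ⌊A + k * X⌋ - (⌊A⌋ + k * ⌊X⌋) := by exact_mod_cast this
    omega
  · have : (⌊A + k * X⌋ : ℝ) - (⌊A⌋ + k * ⌊X⌋) < M + 1 := by nlinarith [h7.2]
    have h8 : ⌊A + k * X⌋ - (⌊A⌋ + k * ⌊X⌋) < (M : ℤ) + 1 := by exact_mod_cast this
    omega

theorem gl_content {m M : ℕ} {C : ℝ} {L : Set ((Fin m → ℝ) × (Fin m → ℝ))} (hL : Content m C L)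
    (v : Fin m → ℤ) (k : ℤ) (hk : |k| ≤ M) : Content m (C * (2 * M + 1) ^ m) (gl_L v k L) := by
  intro j
  obtain ⟨F, hF, hF'⟩ := hL j
  refine ⟨(F ×ˢ Fintype.piFinset (fun _ : Fin m => Finset.Icc (-(M : ℤ)) M)).image
    (fun z => ((fun c => z.1.1 c - 2 ^ j * v c), (fun c => z.1.2 c + k * z.1.1 c + z.2 c))), ?_, ?_⟩
  · have h1 := Finset.card_image_le (s := F ×ˢ Fintype.piFinset (fun _ : Fin m => Finset.Icc (-(M : ℤ)) M))
      (f := fun z : ((Fin m → ℤ) × (Fin m → ℤ)) × (Fin m → ℤ) =>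
        ((fun c => z.1.1 c - 2 ^ j * v c : Fin m → ℤ), (fun c => z.1.2 c + k * z.1.1 c + z.2 c : Fin m → ℤ)))
    rw [Finset.card_product, Fintype.card_piFinset] at h1
    simp only [Int.card_Icc, Finset.prod_const, Finset.card_univ, Fintype.card_fin] at h1
    have h2 : ((M : ℤ) + 1 - -(M : ℤ)).toNat = 2 * M + 1 := by omega
    rw [h2] at h1
    have h3 : ((((F ×ˢ Fintype.piFinset (fun _ : Fin m => Finset.Icc (-(M : ℤ)) M)).image
      (fun z : ((Fin m → ℤ) × (Fin m → ℤ)) × (Fin m → ℤ) =>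
        ((fun c => z.1.1 c - 2 ^ j * v c : Fin m → ℤ),
          (fun c => z.1.2 c + k * z.1.1 c + z.2 c : Fin m → ℤ)))).card : ℕ) : ℝ) ≤
        (F.card : ℝ) * (2 * M + 1) ^ m := by exact_mod_cast h1
    refine h3.trans ?_
    calc (F.card : ℝ) * (2 * M + 1) ^ m ≤ (C * 2 ^ (m * j)) * (2 * M + 1) ^ m :=
          mul_le_mul_of_nonneg_right hF (by positivity)
      _ = C * (2 * M + 1) ^ m * 2 ^ (m * j) := by ring
  · rintro q ⟨p, hp, rfl⟩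
    rw [Finset.mem_image]
    refine ⟨(((fun c => ⌊(2 : ℝ) ^ j * p.1 c⌋), (fun c => ⌊(2 : ℝ) ^ j * p.2 c⌋)),
      (fun c => ⌊(2 : ℝ) ^ j * (p.2 c + k * p.1 c)⌋ - (⌊(2 : ℝ) ^ j * p.2 c⌋ + k * ⌊(2 : ℝ) ^ j * p.1 c⌋))), ?_, ?_⟩
    · rw [Finset.mem_product]
      refine ⟨hF' p hp, ?_⟩
      rw [Fintype.mem_piFinset]
      intro c
      rw [Finset.mem_Icc]
      have h := gl_floor M k hk ((2 : ℝ) ^ j * p.1 c) ((2 : ℝ) ^ j * p.2 c)
      have e : (2 : ℝ) ^ j * (p.2 c + k * p.1 c) = (2 : ℝ) ^ j * p.2 c + k * ((2 : ℝ) ^ j * p.1 c) := by ring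
      rw [← e] at h
      exact h
    · refine Prod.ext ?_ ?_
      · funext c
        show ⌊(2 : ℝ) ^ j * p.1 c⌋ - 2 ^ j * v c = ⌊(2 : ℝ) ^ j * (p.1 c - v c)⌋
        have e : (2 : ℝ) ^ j * (p.1 c - v c) = (2 : ℝ) ^ j * p.1 c - ((2 ^ j * v c : ℤ) : ℝ) := by
          push_cast
          ring
        rw [e, Int.floor_sub_intCast]
      · funext c
        show ⌊(2 : ℝ) ^ j * p.2 c⌋ + k * ⌊(2 : ℝ) ^ j * p.1 c⌋ + (⌊(2 : ℝ) ^ j * (p.2 c + k * p.1 c)⌋ -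
          (⌊(2 : ℝ) ^ j * p.2 c⌋ + k * ⌊(2 : ℝ) ^ j * p.1 c⌋)) = ⌊(2 : ℝ) ^ j * (p.2 c + k * p.1 c)⌋
        ring

theorem st_GL (hUC : ST_UC) (hSH : ST_SHEAR) : ST_GL := by
  intro m M C lam ε hm hlam hε
  obtain ⟨K, hK, HS⟩ := hSH m M
  obtain ⟨I, hI⟩ : ∃ I : Finset ((Fin m → ℤ) × ℤ), I = (Fintype.piFinset (fun _ : Fin m =>
      Finset.Icc (-(M : ℤ)) M)) ×ˢ Finset.Icc (-(M : ℤ)) M := ⟨_, rfl⟩
  have hIne : I.Nonempty := by
    refine ⟨(0, 0), ?_⟩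
    rw [hI, Finset.mem_product, Fintype.mem_piFinset]
    refine ⟨fun c => ?_, ?_⟩ <;> · rw [Finset.mem_Icc]; simp
  have hIc : (0 : ℝ) < I.card := by exact_mod_cast hIne.card_pos
  obtain ⟨c, hc, H⟩ := hUC m (C * (2 * M + 1) ^ m) (lam / I.card) ε hm (by positivity) hε
  have hK0 : 0 < K := by linarith
  refine ⟨c * (K ^ ε)⁻¹, by positivity, ?_⟩
  intro L hL E hvol δ hδ0 hδ1
  obtain ⟨S, hSdef⟩ : ∃ S : Set ((Fin m → ℝ) × ℝ), S = {p : (Fin m → ℝ) × ℝ | (∀ c, |p.1 c| ≤ M) ∧ |p.2| ≤ M ∧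
        ∃ a : Fin m → ℝ, (p.1, a) ∈ L ∧ pt (fun c => a c + p.2 * p.1 c) p.2 ∈ E} := ⟨_, rfl⟩
  rw [← hSdef] at hvol
  have hS : ∀ p ∈ S, (∀ c, |p.1 c| ≤ M) ∧ |p.2| ≤ M := by
    intro p hp
    rw [hSdef] at hp
    exact ⟨hp.1, hp.2.1⟩
  obtain ⟨⟨v, k⟩, hvk, hvol'⟩ := gl_pigeon volume S lam I hIne
    (fun i => {p : (Fin m → ℝ) × ℝ | p ∈ S ∧ (∀ c, ⌊p.1 c⌋ = i.1 c) ∧ ⌊p.2⌋ = i.2}) (by
      intro p hp
      rw [Set.mem_iUnion₂]
      refine ⟨((fun c => ⌊p.1 c⌋), ⌊p.2⌋), ?_, hp, fun _ => rfl, rfl⟩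
      have hfl : ∀ y : ℝ, |y| ≤ M → ⌊y⌋ ∈ Finset.Icc (-(M : ℤ)) M := by
        intro y hy
        rw [abs_le] at hy
        rw [Finset.mem_Icc]
        constructor
        · rw [Int.le_floor]; push_cast; exact hy.1
        · have := (Int.floor_le y).trans hy.2
          exact_mod_cast this
      rw [hI, Finset.mem_product, Fintype.mem_piFinset]
      exact ⟨fun c => hfl _ ((hS p hp).1 c), hfl _ (hS p hp).2⟩) hvol
  rw [hI, Finset.mem_product, Fintype.mem_piFinset] at hvk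
  have hv : ∀ c, |v c| ≤ M := by
    intro c
    have := Finset.mem_Icc.1 (hvk.1 c)
    rw [abs_le]
    exact this
  have hk : |k| ≤ M := by
    have := Finset.mem_Icc.1 hvk.2
    rw [abs_le]
    exact this
  have hinv : (volume : Measure ((Fin m → ℝ) × ℝ)).IsAddRightInvariant := by
    rw [Measure.volume_eq_prod]
    have : ((volume : Measure (Fin m → ℝ)).prod (volume : Measure ℝ)).IsAddLeftInvariant := inferInstance
    infer_instance
  have htr := measure_preimage_add_right (volume : Measure ((Fin m → ℝ) × ℝ))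
    ((fun c => (v c : ℝ)), (k : ℝ)) {p : (Fin m → ℝ) × ℝ | p ∈ S ∧ (∀ c, ⌊p.1 c⌋ = v c) ∧ ⌊p.2⌋ = k}
  have hvol2 : ENNReal.ofReal (lam / I.card) ≤ volume ((fun h : (Fin m → ℝ) × ℝ =>
      h + ((fun c => (v c : ℝ)), (k : ℝ))) ⁻¹'
      {p : (Fin m → ℝ) × ℝ | p ∈ S ∧ (∀ c, ⌊p.1 c⌋ = v c) ∧ ⌊p.2⌋ = k}) := by
    rw [htr]
    exact hvol'
  have hvol3 : ENNReal.ofReal (lam / I.card) ≤ volume {p : (Fin m → ℝ) × ℝ | p.1 ∈ cube m ∧ p.2 ∈ Set.Icc 0 1 ∧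
        ∃ a : Fin m → ℝ, (p.1, a) ∈ gl_L v k L ∧ pt (fun c => a c + p.2 * p.1 c) p.2 ∈
          {p : EuclideanSpace ℝ (Fin (m + 1)) |
        pt (fun c => p c.castSucc + p (Fin.last m) * v c) (p (Fin.last m) + k) ∈ E}} := by
    refine hvol2.trans (measure_mono ?_)
    intro p hp
    obtain ⟨hp1, hp2, hp3⟩ := hp
    have hfrac : ∀ (y : ℝ) (n : ℤ), ⌊y + (n : ℝ)⌋ = n → 0 ≤ y ∧ y < 1 := by
      intro y n h
      rw [Int.floor_add_intCast] at h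
      have h0 : ⌊y⌋ = 0 := by omega
      rw [Int.floor_eq_iff] at h0
      push_cast at h0
      constructor <;> linarith [h0.1, h0.2]
    have hpS := hp1
    rw [hSdef] at hpS
    obtain ⟨a, ha, haE⟩ := hpS.2.2
    have hq := hfrac _ _ hp3
    refine ⟨fun c => hfrac _ _ (hp2 c), ⟨hq.1, hq.2.le⟩, (fun c => a c + k * (p.1 c + v c)), ?_, ?_⟩
    · refine ⟨_, ha, ?_⟩
      refine Prod.ext ?_ ?_
      · funext c
        show p.1 c = (p.1 c + (v c : ℝ)) - v c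
        ring
      · funext c
        rfl
    · show pt (fun c => _ + _) _ ∈ E
      refine (congrArg (fun z => z ∈ E) ?_).mp haE
      have e1 : ∀ (y : Fin m → ℝ) (t : ℝ) (c : Fin m),
          (pt y t : EuclideanSpace ℝ (Fin (m + 1))) c.castSucc = y c := by
        intro y t c
        simp [pt]
      have e2 : ∀ (y : Fin m → ℝ) (t : ℝ),
          (pt y t : EuclideanSpace ℝ (Fin (m + 1))) (Fin.last m) = t := by
        intro y t
        simp [pt]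
      simp only [e1, e2]
      congr 1
      funext c
      show a c + (p.2 + (k : ℝ)) * (p.1 c + (v c : ℝ)) = a c + k * (p.1 c + v c) + p.2 * p.1 c + p.2 * v c
      ring
  have key := H (gl_L v k L) (gl_content hL v k hk) _ hvol3
    (δ / K) (by positivity) (by rw [div_lt_one hK0]; linarith)
  refine le_trans (le_of_eq ?_) (key.trans (HS v k hv hk E δ hδ0))
  congr 1
  rw [Real.div_rpow hδ0.le hK0.le]
  field_simp

end Pool.Agent.Helper70.SK
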